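import Mathlib
import Pool.Agent.Lib.helper26.Thick

set_option autoImplicit false

namespace Pool.Agent.Results.MP_121ecb_an.Hardy

open Filter Topology Polynomial

/-- germs at infinity of real functions -/
abbrev G := Filter.Germ (atTop : Filter ℝ) ℝ

/-- A Hardy field: a subring of the germs that is a field and is closed under differentiation. -/
def IsHardyField (H : Subring G) : Prop :=
  (∀ g ∈ H, g ≠ 0 → ∃ g' ∈ H, g * g' = 1) ∧
    ∀ f : ℝ → ℝ, (f : G) ∈ H →
      (∀ᶠ t in atTop, DifferentiableAt ℝ f t) ∧ ((deriv f : ℝ → ℝ) : G) ∈ H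

/-- upper density of E in N = {1,2,...} -/
noncomputable def upperDensity (E : Set ℕ) : ℝ :=
  limsup (fun N : ℕ => ((E ∩ Set.Icc 1 N).ncard : ℝ) / N) atTop

/-- R_f(E): the n >= 1 such that x + floor (f n) lies in E for some x in E -/
def R (f : ℝ → ℝ) (E : Set ℕ) : Set ℕ :=
  {n | 1 ≤ n ∧ ∃ x ∈ E, ∃ y ∈ E, (y : ℤ) = x + ⌊f n⌋}

/-- S contains arbitrarily long intervals -/
def Thick (S : Set ℕ) : Prop := ∀ L : ℕ, ∃ a : ℕ, ∀ i ≤ L, a + i ∈ S

noncomputable def φ : ℝ[X] →+* G :=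
  (Filter.Germ.coeRingHom atTop).comp (RingHom.pi fun t : ℝ => Polynomial.evalRingHom √t)

lemma φ_eq (p : ℝ[X]) : φ p = ((fun t : ℝ => p.eval √t : ℝ → ℝ) : G) := rfl

lemma ne {p : ℝ[X]} (hp : p ≠ 0) : ∀ᶠ t in atTop, p.eval √t ≠ 0 :=
  Real.tendsto_sqrt_atTop.eventually (p.eventually_atTop_not_isRoot hp)

lemma unit {p : ℝ[X]} (hp : p ≠ 0) : ∃ w : G, φ p * w = 1 :=
  ⟨((fun t : ℝ => (p.eval √t)⁻¹ : ℝ → ℝ) : G),
    Filter.Germ.coe_eq.2 ((ne hp).mono fun _ ht => mul_inv_cancel₀ ht)⟩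

noncomputable def H : Subring G where
  carrier := {g | ∃ p q : ℝ[X], q ≠ 0 ∧ φ q * g = φ p}
  mul_mem' := by
    rintro a b ⟨p, q, h1, h2⟩ ⟨p', q', h1', h2'⟩
    exact ⟨p * p', q * q', mul_ne_zero h1 h1', by
      rw [map_mul, map_mul, ← h2, ← h2']; ring⟩
  one_mem' := ⟨1, 1, one_ne_zero, by simp⟩
  add_mem' := by
    rintro a b ⟨p, q, h1, h2⟩ ⟨p', q', h1', h2'⟩
    exact ⟨q' * p + q * p', q * q', mul_ne_zero h1 h1', by
      rw [map_add, map_mul, map_mul, map_mul, ← h2, ← h2']; ring⟩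
  zero_mem' := ⟨0, 1, one_ne_zero, by simp⟩
  neg_mem' := by
    rintro a ⟨p, q, h1, h2⟩
    exact ⟨-p, q, h1, by rw [map_neg, ← h2]; ring⟩

lemma hardy : IsHardyField H := by
  refine ⟨?_, ?_⟩
  · rintro g ⟨p, q, h1, h2⟩ hg
    have hp : p ≠ 0 := by
      rintro rfl
      obtain ⟨w, hw⟩ := unit h1
      refine hg ?_
      rw [← one_mul g, ← hw, mul_right_comm, h2, map_zero, zero_mul]
    obtain ⟨w, hw⟩ := unit hp
    exact ⟨φ q * w, ⟨q, p, hp, by rw [mul_left_comm, hw, mul_one]⟩, by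
      rw [← mul_assoc, mul_comm g, h2, hw]⟩
  · rintro f ⟨p, q, h1, h2⟩
    have h3 : ∀ᶠ t in atTop, f t = p.eval √t / q.eval √t := by
      filter_upwards [Filter.Germ.coe_eq.1 h2, ne h1] with t a1 a2
      rw [eq_div_iff a2, mul_comm]
      exact a1
    obtain ⟨t0, h3⟩ := eventually_atTop.1 h3
    have key : ∀ᶠ t in atTop, √t ≠ 0 ∧ q.eval √t ≠ 0 ∧ HasDerivAt f
        ((p.derivative.eval √t * (1 / (2 * √t)) * q.eval √t -
          p.eval √t * (q.derivative.eval √t * (1 / (2 * √t)))) / q.eval √t ^ 2) t := by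
      filter_upwards [eventually_gt_atTop t0, eventually_gt_atTop 0, ne h1] with t a1 a2 a3
      have s := Real.hasDerivAt_sqrt a2.ne'
      refine ⟨(Real.sqrt_pos.2 a2).ne', a3, HasDerivAt.congr_of_eventuallyEq
        (((p.hasDerivAt _).comp t s).div ((q.hasDerivAt _).comp t s) a3) ?_⟩
      filter_upwards [Ioi_mem_nhds a1] with x hx
      exact h3 x (le_of_lt hx)
    refine ⟨key.mono fun t ht => ht.2.2.differentiableAt,
      p.derivative * q - p * q.derivative, C 2 * X * q ^ 2,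
      mul_ne_zero (mul_ne_zero (by simp) X_ne_zero) (pow_ne_zero _ h1),
      Filter.Germ.coe_eq.2 (key.mono fun t ⟨a1, a2, a3⟩ => ?_)⟩
    change eval √t (C 2 * X * q ^ 2) * deriv f t = eval √t (p.derivative * q - p * q.derivative)
    rw [a3.deriv]
    simp only [eval_mul, eval_C, eval_X, eval_pow, eval_sub]
    field_simp

noncomputable def a : ℕ → ℝ
  | 0 => 1
  | m + 1 => a m * (3 / 2 - m)

def e : ℕ → ℝ → ℝ
  | 0, t => t
  | 1, _ => 1
  | _ + 2, _ => 0

lemma der (α β : ℝ) (m : ℕ) : ∀ t : ℝ, 0 < t →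
    iteratedDeriv m (fun t : ℝ => α * t ^ (3 / 2 : ℝ) + β * t) t =
      α * (a m * t ^ (3 / 2 - m : ℝ)) + β * e m t := by
  induction m with
  | zero => intro t _; simp [a, e]
  | succ m ih =>
    intro t ht
    have h1 : HasDerivAt (e m) (e (m + 1) t) t := by
      match m with
      | 0 => exact hasDerivAt_id t
      | 1 => exact hasDerivAt_const t (1 : ℝ)
      | _ + 2 => exact hasDerivAt_const t (0 : ℝ)
    have h2 := ((((Real.hasDerivAt_rpow_const (p := 3 / 2 - m) (Or.inl ht.ne')).const_mul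
      (a m)).const_mul α).add (h1.const_mul β)).congr_of_eventuallyEq
      (f₁ := iteratedDeriv m (fun t : ℝ => α * t ^ (3 / 2 : ℝ) + β * t)) (by
        filter_upwards [Ioi_mem_nhds ht] with x hx
        exact ih x hx)
    rw [iteratedDeriv_succ, h2.deriv, a]
    push_cast
    rw [sub_sub]
    ring

noncomputable def P (α β : ℝ) : ℕ → ℝ[X]
  | 0 => C α * X ^ 3 + C β * X ^ 2
  | 1 => C (α * (3 / 2)) * X + C β
  | _ + 2 => 0

lemma asym (α β : ℝ) (m : ℕ) : Tendsto (fun t : ℝ =>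
    iteratedDeriv m (fun t : ℝ => α * t ^ (3 / 2 : ℝ) + β * t) t - (P α β m).eval √t) atTop
      (𝓝 0) := by
  match m with
  | 0 =>
    refine tendsto_const_nhds.congr' ?_
    filter_upwards [eventually_gt_atTop 0] with t ht
    have : t ^ (3 / 2 : ℝ) = √t ^ 3 := by
      rw [Real.sqrt_eq_rpow, ← Real.rpow_natCast, ← Real.rpow_mul ht.le]; norm_num
    simp [P, this, Real.sq_sqrt ht.le]
  | 1 =>
    refine tendsto_const_nhds.congr' ?_
    filter_upwards [eventually_gt_atTop 0] with t ht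
    rw [der _ _ _ _ ht, Real.sqrt_eq_rpow]
    simp only [P, a, e, eval_add, eval_mul, eval_C, eval_X]
    norm_num
    ring
  | m + 2 =>
    have := ((tendsto_rpow_neg_atTop (y := m + 1 / 2) (by positivity)).const_mul
      (a (m + 2))).const_mul α
    simp only [mul_zero] at this
    refine this.congr' ?_
    filter_upwards [eventually_gt_atTop 0] with t ht
    rw [der _ _ _ _ ht]
    simp only [P, e, eval_zero, mul_zero, add_zero, sub_zero]
    congr 3
    push_cast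
    ring

theorem result (α : ℝ) (hα : Irrational α) : ∃ (H : Subring G) (f₁ f₂ : ℝ → ℝ) (E : Set ℕ),
    IsHardyField H ∧ f₁ = (fun t => t ^ (3 / 2 : ℝ)) ∧ f₂ = (fun t => α * t ^ (3 / 2 : ℝ) + t) ∧
    (f₁ : G) ∈ H ∧ (f₂ : G) ∈ H ∧
    (∀ (c₁ c₂ : ℤ) (m₁ m₂ : ℕ),
      Tendsto (fun t => |c₁ * iteratedDeriv m₁ f₁ t + c₂ * iteratedDeriv m₂ f₂ t|) atTop (𝓝 0) ∨
      Tendsto (fun t => |c₁ * iteratedDeriv m₁ f₁ t + c₂ * iteratedDeriv m₂ f₂ t|) atTop atTop) ∧
    (∀ x ∈ E, 1 ≤ x) ∧ 0 < upperDensity E ∧ ¬ Thick (R f₁ E ∩ R f₂ E) := by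
  obtain ⟨E, h1, h2, L, h3⟩ := Pool.Agent.Lib.helper26.Thick.main α
  have mem : ∀ α β : ℝ, ((fun t : ℝ => α * t ^ (3 / 2 : ℝ) + β * t : ℝ → ℝ) : G) ∈ H := by
    intro α β
    refine ⟨P α β 0, 1, one_ne_zero, ?_⟩
    rw [map_one, one_mul]
    refine Filter.Germ.coe_eq.2 ?_
    filter_upwards [eventually_gt_atTop 0] with t ht
    have : t ^ (3 / 2 : ℝ) = √t ^ 3 := by
      rw [Real.sqrt_eq_rpow, ← Real.rpow_natCast, ← Real.rpow_mul ht.le]; norm_num
    simp [P, this, Real.sq_sqrt ht.le]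
  refine ⟨H, _, _, E, hardy, rfl, rfl, by simpa using mem 1 0, by simpa using mem α 1,
    fun c₁ c₂ m₁ m₂ => ?_, h1, h2, fun h => ?_⟩
  · have r := ((asym 1 0 m₁).const_mul (c₁ : ℝ)).add ((asym α 1 m₂).const_mul (c₂ : ℝ))
    simp only [mul_zero, add_zero, one_mul, zero_mul] at r
    set Q : ℝ[X] := C (c₁ : ℝ) * P 1 0 m₁ + C (c₂ : ℝ) * P α 1 m₂ with hQ
    by_cases hd : 0 < Q.degree
    · right
      have q := (Q.abs_tendsto_atTop hd).comp Real.tendsto_sqrt_atTop
      refine tendsto_atTop_mono (fun t => ?_) (q.atTop_add r.abs.neg)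
      simp only [Function.comp, hQ, eval_add, eval_mul, eval_C]
      rw [← sub_eq_add_neg]
      refine (abs_sub_abs_le_abs_add _ _).trans (le_of_eq ?_)
      congr 1
      ring
    · left
      have k1 : Q.coeff 1 = 0 := coeff_eq_zero_of_degree_lt (lt_of_le_of_lt (not_lt.1 hd) (by norm_num))
      have k0 : Q.coeff 0 = 0 := by
        by_contra hc
        match m₁, m₂ with
        | 0, 0 => simp [hQ, P] at hc
        | 1, 0 => simp [hQ, P] at hc
        | _ + 2, 0 => simp [hQ, P] at hc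
        | 0, _ + 2 => simp [hQ, P] at hc
        | 1, _ + 2 => simp [hQ, P] at hc
        | _ + 2, _ + 2 => simp [hQ, P] at hc
        | 0, 1 => simp [hQ, P, coeff_X, coeff_one, hα.ne_zero] at hc k1; exact hc k1
        | _ + 2, 1 => simp [hQ, P, coeff_X, coeff_one, hα.ne_zero] at hc k1; exact hc k1
        | 1, 1 =>
          simp [hQ, P, coeff_X, coeff_one] at hc k1
          exact (hα.intCast_mul hc).ne_int (-c₁) (by push_cast; linarith)
      have q0 : Q = 0 := by rw [eq_C_of_degree_le_zero (not_lt.1 hd), k0, C_0]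
      have := r.abs
      rw [abs_zero] at this
      refine this.congr fun t => ?_
      have := congrArg (eval √t) q0
      simp only [hQ, eval_add, eval_mul, eval_C, eval_zero] at this
      congr 1
      linarith
  · obtain ⟨a, ha⟩ := h L
    obtain ⟨i, hi, h4⟩ := h3 a
    exact h4 _ (ha i hi).1.2 (ha i hi).2.2

end Pool.Agent.Results.MP_121ecb_an.Hardy
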